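import Mathlib

/-! Partial results on MP_d11cf5_gt: an interval order inducing a `T1` topology is a semiorder, its
topology is suborderable (it makes the set a generalized ordered space), and both contour maps are
injective. -/

namespace Pool.Agent.Results.MP_d11cf5_gt.SemiorderSuborderable

open Topology

universe u

/-- The subbasis of the topology `τ_R`. -/
def gens {X : Type u} (R : X → X → Prop) : Set (Set X) :=
  {S | S = ∅ ∨ S = Set.univ ∨ (∃ t, S = {a | R t a}) ∨ (∃ y, S = {b | R b y})}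

/-- The topology `τ_R`. -/
def inducedTop {X : Type u} (R : X → X → Prop) : TopologicalSpace X :=
  TopologicalSpace.generateFrom (gens R)

/-- Interval orders. -/
def IsIntervalOrder {X : Type u} (R : X → X → Prop) : Prop :=
  (∀ x, ¬ R x x) ∧ ∀ x y z w, R x y → R z w → R x w ∨ R z y

/-- Semiorders. -/
def IsSemiorder {X : Type u} (R : X → X → Prop) : Prop :=
  IsIntervalOrder R ∧ ∀ x y z w, R x y → R y z → R x w ∨ R w z

/-- Suborderable topologies (generalized ordered spaces): for some linear order all open rays are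
open and the order-convex open sets form a base. -/
def IsSuborderable {X : Type u} (τ : TopologicalSpace X) : Prop :=
  ∃ _ : LinearOrder X, (∀ a : X, IsOpen[τ] (Set.Ioi a) ∧ IsOpen[τ] (Set.Iio a)) ∧
    ∀ (x : X) (V : Set X), IsOpen[τ] V → x ∈ V →
      ∃ W : Set X, IsOpen[τ] W ∧ x ∈ W ∧ W ⊆ V ∧ W.OrdConnected

/-- The trace of the relation. -/
def tle {X : Type u} (R : X → X → Prop) (x y : X) : Prop :=
  (∀ a, R y a → R x a) ∧ (∀ b, R b x → R b y)

theorem sep_gen {X : Type u} {R : X → X → Prop} {V : Set X}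
    (hV : TopologicalSpace.GenerateOpen (gens R) V) :
    ∀ x y, x ∈ V → y ∉ V → ∃ S ∈ gens R, x ∈ S ∧ y ∉ S := by
  induction hV with
  | basic s hs => exact fun x y hx hy => ⟨s, hs, hx, hy⟩
  | univ => exact fun x y _ hy => absurd (Set.mem_univ y) hy
  | inter s t _ _ ih1 ih2 =>
      intro x y hx hy
      by_cases h1 : y ∈ s
      · exact ih2 x y hx.2 (fun h2 => hy ⟨h1, h2⟩)
      · exact ih1 x y hx.1 h1
  | sUnion S _ ih =>
      rintro x y ⟨s, hs, hx⟩ hy
      exact ih s hs x y hx (fun h => hy ⟨s, hs, h⟩)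

theorem convex_gen {X : Type u} {R : X → X → Prop} {V : Set X}
    (hV : TopologicalSpace.GenerateOpen (gens R) V) :
    ∀ x ∈ V, ∃ A B : Set X, IsOpen[inducedTop R] A ∧ IsOpen[inducedTop R] B ∧ x ∈ A ∧ x ∈ B ∧
      A ∩ B ⊆ V ∧ (∀ p ∈ A, ∀ q, tle R p q → q ∈ A) ∧ (∀ p ∈ B, ∀ q, tle R q p → q ∈ B) := by
  letI := inducedTop R
  induction hV with
  | basic s hs =>
      intro x hx
      have ho : IsOpen s := TopologicalSpace.GenerateOpen.basic s hs
      rcases hs with rfl | rfl | ⟨t, rfl⟩ | ⟨t, rfl⟩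
      · exact absurd hx (Set.notMem_empty x)
      · exact ⟨Set.univ, Set.univ, isOpen_univ, isOpen_univ, trivial, trivial,
          fun _ _ => trivial, fun _ _ _ _ => trivial, fun _ _ _ _ => trivial⟩
      · exact ⟨_, Set.univ, ho, isOpen_univ, hx, trivial, fun _ h => h.1,
          fun p hp q hq => hq.2 _ hp, fun _ _ _ _ => trivial⟩
      · exact ⟨Set.univ, _, isOpen_univ, ho, trivial, hx, fun _ h => h.2,
          fun _ _ _ _ => trivial, fun p hp q hq => hq.1 _ hp⟩
  | univ =>
      intro x _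
      exact ⟨Set.univ, Set.univ, isOpen_univ, isOpen_univ, trivial, trivial,
          fun _ _ => trivial, fun _ _ _ _ => trivial, fun _ _ _ _ => trivial⟩
  | inter s t _ _ ih1 ih2 =>
      intro x hx
      obtain ⟨A, B, h1, h2, h3, h4, h5, h6, h7⟩ := ih1 x hx.1
      obtain ⟨A', B', g1, g2, g3, g4, g5, g6, g7⟩ := ih2 x hx.2
      exact ⟨A ∩ A', B ∩ B', h1.inter g1, h2.inter g2, ⟨h3, g3⟩, ⟨h4, g4⟩,
        fun p hp => ⟨h5 ⟨hp.1.1, hp.2.1⟩, g5 ⟨hp.1.2, hp.2.2⟩⟩,
        fun p hp q hq => ⟨h6 p hp.1 q hq, g6 p hp.2 q hq⟩,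
        fun p hp q hq => ⟨h7 p hp.1 q hq, g7 p hp.2 q hq⟩⟩
  | sUnion S _ ih =>
      rintro x ⟨s, hs, hx⟩
      obtain ⟨A, B, h1, h2, h3, h4, h5, h6, h7⟩ := ih s hs x hx
      exact ⟨A, B, h1, h2, h3, h4, fun p hp => ⟨s, hs, h5 hp⟩, h6, h7⟩

/-- In a `T1` topology the subbasic sets separate points in both directions. -/
theorem sep {X : Type u} {R : X → X → Prop} (hT : @T1Space X (inducedTop R)) {x y : X}
    (hxy : x ≠ y) : (∃ t, R t x ∧ ¬ R t y) ∨ (∃ z, R x z ∧ ¬ R y z) := by
  letI := inducedTop R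
  have ho : IsOpen ({y}ᶜ : Set X) := isOpen_compl_singleton
  obtain ⟨S, hS, h1, h2⟩ := sep_gen ho x y hxy (fun h => h rfl)
  rcases hS with rfl | rfl | ⟨t, rfl⟩ | ⟨t, rfl⟩
  · exact absurd h1 (Set.notMem_empty x)
  · exact absurd (Set.mem_univ y) h2
  · exact Or.inl ⟨t, h1, h2⟩
  · exact Or.inr ⟨t, h1, h2⟩

/-- For an interval order with `T1` topology the trace is total. -/
theorem tle_total {X : Type u} {R : X → X → Prop} (h : IsIntervalOrder R)
    (hT : @T1Space X (inducedTop R)) (x y : X) : tle R x y ∨ tle R y x := by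
  by_cases hxy : x = y
  · subst hxy
    exact Or.inl ⟨fun _ h => h, fun _ h => h⟩
  · rcases sep hT hxy with ⟨t, ht, ht'⟩ | ⟨z, hz, hz'⟩
    · rcases sep hT (Ne.symm hxy) with ⟨s, hs, hs'⟩ | ⟨w, hw, hw'⟩
      · rcases h.2 t x s y ht hs with h3 | h3
        · exact absurd h3 ht'
        · exact absurd h3 hs'
      · refine Or.inr ⟨fun a ha => ?_, fun b hb => ?_⟩
        · rcases h.2 x a y w ha hw with h3 | h3
          · exact absurd h3 hw'
          · exact h3
        · rcases h.2 b y t x hb ht with h3 | h3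
          · exact h3
          · exact absurd h3 ht'
    · rcases sep hT (Ne.symm hxy) with ⟨s, hs, hs'⟩ | ⟨w, hw, hw'⟩
      · refine Or.inl ⟨fun a ha => ?_, fun b hb => ?_⟩
        · rcases h.2 y a x z ha hz with h3 | h3
          · exact absurd h3 hz'
          · exact h3
        · rcases h.2 b x s y hb hs with h3 | h3
          · exact h3
          · exact absurd h3 hs'
      · rcases h.2 x z y w hz hw with h3 | h3
        · exact absurd h3 hw'
        · exact absurd h3 hz'

/-- An interval order with `T1` topology is a semiorder. -/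
theorem semi {X : Type u} {R : X → X → Prop} (h : IsIntervalOrder R)
    (hT : @T1Space X (inducedTop R)) : IsSemiorder R := by
  refine ⟨h, fun x y z w hxy hyz => ?_⟩
  rcases tle_total h hT w y with h1 | h1
  · exact Or.inr (h1.1 z hyz)
  · exact Or.inl (h1.2 x hxy)

/-- The trace as a linear order. -/
noncomputable def lo {X : Type u} {R : X → X → Prop} (h : IsIntervalOrder R)
    (hT : @T1Space X (inducedTop R)) : LinearOrder X where
  le := tle R
  le_refl x := ⟨fun _ h => h, fun _ h => h⟩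
  le_trans x y z h1 h2 := ⟨fun a ha => h1.1 a (h2.1 a ha), fun b hb => h2.2 b (h1.2 b hb)⟩
  le_antisymm x y h1 h2 := by
    by_contra hne
    rcases sep hT hne with ⟨t, ht, ht'⟩ | ⟨z, hz, hz'⟩
    · exact ht' (h1.2 t ht)
    · exact hz' (h2.1 z hz)
  le_total := tle_total h hT
  toDecidableLE := Classical.decRel _

theorem result :
    ∀ (X : Type u) (R : X → X → Prop), IsIntervalOrder R → @T1Space X (inducedTop R) →
      IsSemiorder R ∧ IsSuborderable (inducedTop R) ∧
      Function.Injective (fun x => {a | R x a}) ∧ Function.Injective (fun x => {b | R b x}) := by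
  intro X R hR hT
  letI := inducedTop R
  have key : ∀ x y : X, tle R x y → x ≠ y →
      (∃ t, R t y ∧ ¬ R t x) ∧ (∃ z, R x z ∧ ¬ R y z) := by
    intro x y hxy hne
    constructor
    · rcases sep hT hne.symm with h | ⟨z, hz, hz'⟩
      · exact h
      · exact absurd (hxy.1 z hz) hz'
    · rcases sep hT hne with ⟨t, ht, ht'⟩ | h
      · exact absurd (hxy.2 t ht) ht'
      · exact h
  refine ⟨semi hR hT, ⟨lo hR hT, fun a => ⟨?_, ?_⟩, ?_⟩, ?_, ?_⟩
  · letI := lo hR hT
    rw [isOpen_iff_forall_mem_open]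
    intro y hy
    have hy1 : a < y := hy
    have hy2 : a ≤ y := le_of_lt hy1
    have hay : tle R a y := hy2
    obtain ⟨⟨t, ht, ht'⟩, -⟩ := key a y hay (ne_of_lt hy)
    refine ⟨{p | R t p}, fun p hp => ?_,
      TopologicalSpace.GenerateOpen.basic _ (Or.inr (Or.inr (Or.inl ⟨t, rfl⟩))), ht⟩
    rcases lt_or_ge a p with h | h
    · exact h
    · exact absurd ((show tle R p a from h).2 t hp) ht'
  · letI := lo hR hT
    rw [isOpen_iff_forall_mem_open]
    intro y hy
    have hy1 : y < a := hy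
    have hy2 : y ≤ a := le_of_lt hy1
    have hay : tle R y a := hy2
    obtain ⟨-, ⟨z, hz, hz'⟩⟩ := key y a hay (ne_of_lt hy)
    refine ⟨{p | R p z}, fun p hp => ?_,
      TopologicalSpace.GenerateOpen.basic _ (Or.inr (Or.inr (Or.inr ⟨z, rfl⟩))), hz⟩
    rcases lt_or_ge p a with h | h
    · exact h
    · exact absurd ((show tle R a p from h).1 z hp) hz'
  · letI := lo hR hT
    intro x V hV hx
    obtain ⟨A, B, h1, h2, h3, h4, h5, h6, h7⟩ := convex_gen hV x hx
    refine ⟨A ∩ B, IsOpen.inter h1 h2, ⟨h3, h4⟩, h5, ⟨?_⟩⟩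
    intro p hp q hq r hr
    exact ⟨h6 p hp.1 r hr.1, h7 q hq.2 r hr.2⟩
  · intro x y hxy
    by_contra hne
    have hxy' : ∀ a, R x a ↔ R y a := fun a => by
      have := Set.ext_iff.1 hxy a
      simpa using this
    rcases tle_total hR hT x y with h | h
    · obtain ⟨-, z, hz, hz'⟩ := key x y h hne
      exact hz' ((hxy' z).1 hz)
    · obtain ⟨-, z, hz, hz'⟩ := key y x h (Ne.symm hne)
      exact hz' ((hxy' z).2 hz)
  · intro x y hxy
    by_contra hne
    have hxy' : ∀ a, R a x ↔ R a y := fun a => by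
      have := Set.ext_iff.1 hxy a
      simpa using this
    rcases tle_total hR hT x y with h | h
    · obtain ⟨⟨t, ht, ht'⟩, -⟩ := key x y h hne
      exact ht' ((hxy' t).2 ht)
    · obtain ⟨⟨t, ht, ht'⟩, -⟩ := key y x h (Ne.symm hne)
      exact ht' ((hxy' t).1 ht)

end Pool.Agent.Results.MP_d11cf5_gt.SemiorderSuborderable
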